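import Pool.Agent.U173.LD.Defs

/-!
# Semisimplicity on étale homology and the denominators of slopes: definitions
-/

set_option autoImplicit false

open Finset TensorProduct

namespace Pool.Agent.U173.SS

open Pool.Agent.U222.CR.Pub Pool.Agent.U222.SM Pool.Agent.U173.PT Pool.Agent.U173.DN
  Pool.Agent.U173.LD

variable (K : Type) {𝒱 : Type} (H : 𝒱 → Type) [Field K] [Mul 𝒱] [∀ X, AddCommGroup (H X)]
  [∀ X, Module K (H X)]

/-- The étale homology `H X` of the varieties `X` over a finite field (proper or not, smooth or not):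
the Frobenius, the homology of degree `m` and the isomorphisms of Künneth. -/
structure Homology : Type where
  frob : ∀ X, Module.End K (H X)
  gr : ∀ X, ℕ → Submodule K (H X)
  kunneth : ∀ X Y, H X ⊗[K] H Y ≃ₗ[K] H (X * Y)

variable {K H}

/-- The Frobenius is injective, and the isomorphisms of Künneth are compatible with the Frobenius and with
the degrees. -/
structure Homology.IsStandard (T : Homology K H) : Prop where
  injective : ∀ X, Function.Injective (T.frob X)
  cross : ∀ X Y (x : H X) (y : H Y), T.frob (X * Y) (cross (T.kunneth X Y) x y) =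
    cross (T.kunneth X Y) (T.frob X x) (T.frob Y y)
  degree : ∀ X Y n, T.gr (X * Y) n = crossSpan (T.kunneth X Y) (T.gr X) (T.gr Y) n

/-- The generalised Tate classes of dimension `j` over the extension of degree `m` of the field with `q`
elements: the classes of degree `2 j` in the generalised eigenspace of `F ^ m` for `q ^ (m j)`. -/
def Homology.tateClasses (T : Homology K H) (q m : ℕ) (X : 𝒱) (j : ℕ) : Set (H X) :=
  {x | x ∈ T.gr X (2 * j) ∧ x ∈ (T.frob X ^ m).maxGenEigenspace ((q : K) ^ (m * j))}

/-- The statement `SS_j (X)` over the extension of degree `m`: all Jordan blocks of the Frobenius `F ^ m` for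
the eigenvalue `q ^ (m j)` on the homology of degree `2 j` have size one. -/
def Homology.Semisimple (T : Homology K H) (q m : ℕ) (X : 𝒱) (j : ℕ) : Prop :=
  ∀ x ∈ T.tateClasses q m X j, (T.frob X ^ m) x = (q : K) ^ (m * j) • x

/-- The homology of `X` is the direct sum of the lines of classes `e k` of degree `2 dim k`, eigenvectors of
the Frobenius for `q ^ dim k`, `q = p ^ m` (the dimension zero occurs), with coordinates `l k` which are
zero in the other degrees, and of a subspace `W` stable under the Frobenius `F` such that all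
eigenvalues of `F` on `W` have, for some embedding of the algebraic numbers, a slope with a denominator
divisible by `R`. -/
structure Homology.IsFactor [CharZero K] (T : Homology K H) (v : Place Unit) (R : ℕ) (X : 𝒱)
    {I : Type} [Fintype I] [DecidableEq I] (dim : I → ℕ) (e : I → H X)
    (l : I → H X →ₗ[K] K) : Prop where
  point : ∃ k, dim k = 0
  degree : ∀ k, e k ∈ T.gr X (2 * dim k)
  frobenius : ∀ k, T.frob X (e k) = ((v.p : K) ^ v.m) ^ dim k • e k
  coordinate : ∀ k n, n ≠ 2 * dim k → ∀ x ∈ T.gr X n, l k x = 0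
  dual : IsDual e l
  part : ∃ W : Submodule K (H X), (∀ x ∈ W, T.frob X x ∈ W) ∧ (∀ k, ∀ x ∈ W, l k x = 0) ∧
    (∀ x, remainder e l x ∈ W) ∧
    ∀ (α : K), ∀ x ∈ W, x ≠ 0 → T.frob X x = α • x → HasDenominator v R α

/-- The varieties `X i` are as in `IsFactor` for the prime powers `R i`, and the `X j`, `j ≠ i`, and the
variety `U` avoid the denominator `R i`. -/
structure Homology.IsSystem [CharZero K] (T : Homology K H) (v : Place Unit) {ι : Type} (R : ι → ℕ)
    (X : ι → 𝒱) (U : 𝒱) {I : ι → Type} [∀ i, Fintype (I i)] [∀ i, DecidableEq (I i)]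
    (dim : ∀ i, I i → ℕ) (e : ∀ i, I i → H (X i)) (l : ∀ i, I i → H (X i) →ₗ[K] K) : Prop where
  factor : ∀ i, T.IsFactor v (R i) (X i) (dim i) (e i) (l i)
  pos : 0 < v.m
  prime : ∀ i, IsPrimePow (R i)
  others : ∀ i j, i ≠ j → Avoids v (R i) (T.frob (X j))
  base : ∀ i, Avoids v (R i) (T.frob U)

/-- The products `e_{k_1} × (e_{k_2} × (⋯ × y))` of dimension `w`, where `y` is a class on `U` in
`P (w - d)` and `d` is the sum of the dimensions of the `e_{k_i}`. -/
def Homology.products (T : Homology K H) {ι : Type} {X : ι → 𝒱} {U : 𝒱} {I : ι → Type}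
    (dim : ∀ i, I i → ℕ) (e : ∀ i, I i → H (X i)) (P : ℕ → Set (H U)) :
    ∀ (L : List ι), ℕ → Set (H (productOf X U L))
  | [], w => P w
  | i :: L, w => {x | ∃ (k : I i) (y : H (productOf X U L)), dim i k ≤ w ∧
      y ∈ T.products dim e P L (w - dim i k) ∧
      Pool.Agent.U222.CR.Pub.cross (T.kunneth (X i) (productOf X U L)) (e i k) y = x}

/-- The sums of the dimensions of classes `e_{k_1}, e_{k_2}, …`, one for each index in the list. -/
def dimensions {ι : Type} {I : ι → Type} (dim : ∀ i, I i → ℕ) : List ι → Set ℕ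
  | [] => {0}
  | i :: L => {d | ∃ (k : I i), ∃ d' ∈ dimensions dim L, d = dim i k + d'}

/-- The conclusions for the product `V × U` of `U` and of the `X_i` with the indices in the list `L`. -/
structure Homology.Conclusions (T : Homology K H) (q : ℕ) {ι : Type} (X : ι → 𝒱) (U : 𝒱)
    {I : ι → Type} (dim : ∀ i, I i → ℕ) (e : ∀ i, I i → H (X i)) (L : List ι) : Prop where
  classes : ∀ m w : ℕ, 0 < m → T.tateClasses q m (productOf X U L) w =
    (Submodule.span K (T.products dim e (T.tateClasses q m U) L w) : Set _)
  semisimple : ∀ m w : ℕ, 0 < m → (T.Semisimple q m (productOf X U L) w ↔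
    ∀ d ∈ dimensions dim L, d ≤ w → T.Semisimple q m U (w - d))
  bounded : ∀ m n : ℕ, 0 < m → ((∀ w ≤ n, T.Semisimple q m (productOf X U L) w) ↔
    ∀ w ≤ n, T.Semisimple q m U w)

end Pool.Agent.U173.SS
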