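import Pool.Agent.U173.LD.Main
import Pool.Agent.U173.SS.Defs

/-!
# Semisimplicity on étale homology and the denominators of slopes
-/

set_option autoImplicit false
set_option linter.unusedSectionVars false

open Finset TensorProduct Module

namespace Pool.Agent.U173.SS

open Pool.Agent.U222.CR.Pub Pool.Agent.U173.PT Pool.Agent.U173.DN Pool.Agent.U173.LD
open Pool.Agent.U222.SM (slant_cross slant_zero slant_add slant_smul cross_zero cross_add
  cross_smul smul_cross cross_ind crossSpan)

section linear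

variable {K M M' : Type} [Field K] [AddCommGroup M] [Module K M] [AddCommGroup M'] [Module K M']

/-- an eigenvalue from a generalised eigenvector -/
theorem hasEigenvalue_of_gen {f : Module.End K M} {c : K} {x : M}
    (hx : x ∈ f.maxGenEigenspace c) (hx0 : x ≠ 0) : f.HasEigenvalue c := by
  by_contra hno
  have h1 : Function.Injective (f - c • (1 : Module.End K M)) := by
    rw [injective_iff_map_eq_zero]
    intro y hy
    by_contra hy0
    refine hno (Module.End.hasEigenvalue_of_hasEigenvector
      ⟨Module.End.mem_eigenspace_iff.2 ?_, hy0⟩)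
    rw [LinearMap.sub_apply, LinearMap.smul_apply, Module.End.one_apply, sub_eq_zero] at hy
    exact hy
  rw [Module.End.mem_maxGenEigenspace] at hx
  obtain ⟨N, hN⟩ := hx
  have h2 : Function.Injective ((f - c • (1 : Module.End K M)) ^ N) := by
    rw [Module.End.coe_pow]
    exact h1.iterate N
  exact hx0 ((injective_iff_map_eq_zero _).1 h2 x hN)

/-- the eigenvalues of a power -/
theorem exists_root [IsAlgClosed K] [FiniteDimensional K M] {f : Module.End K M} {m : ℕ}
    (hm : 0 < m) {c : K} (h : (f ^ m).HasEigenvalue c) : ∃ ν, f.HasEigenvalue ν ∧ ν ^ m = c := by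
  rw [Module.End.hasEigenvalue_iff_mem_spectrum, spectrum.map_pow_of_pos f hm] at h
  obtain ⟨ν, hν, rfl⟩ := h
  exact ⟨ν, Module.End.hasEigenvalue_iff_mem_spectrum.2 hν, rfl⟩

/-- powers commute with an intertwining map -/
theorem map_pow' (φ : M →ₗ[K] M') {f : Module.End K M} {f' : Module.End K M'}
    (h : ∀ z, φ (f z) = f' (φ z)) (n : ℕ) (z : M) : φ ((f ^ n) z) = (f' ^ n) (φ z) := by
  induction n generalizing z with
  | zero => rfl
  | succ n ih => rw [pow_succ', pow_succ', Module.End.mul_apply, Module.End.mul_apply, h, ih]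

/-- generalised eigenvectors under an intertwining map -/
theorem map_gen (φ : M →ₗ[K] M') {f : Module.End K M} {f' : Module.End K M'}
    (h : ∀ z, φ (f z) = f' (φ z)) {c : K} {x : M} (hx : x ∈ f.maxGenEigenspace c) :
    φ x ∈ f'.maxGenEigenspace c := by
  rw [Module.End.mem_maxGenEigenspace] at hx ⊢
  obtain ⟨N, hN⟩ := hx
  refine ⟨N, ?_⟩
  rw [← map_pow' φ (f := f - c • (1 : Module.End K M)) (fun z => ?_), hN, map_zero]
  rw [LinearMap.sub_apply, LinearMap.sub_apply, LinearMap.smul_apply, LinearMap.smul_apply,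
    Module.End.one_apply, Module.End.one_apply, map_sub, h, map_smul]

/-- scaling -/
theorem scale {g : Module.End K M} {b c : K} (hb : b ≠ 0) {y : M} :
    y ∈ (b • g).maxGenEigenspace (b * c) ↔ y ∈ g.maxGenEigenspace c := by
  rw [Module.End.mem_maxGenEigenspace, Module.End.mem_maxGenEigenspace]
  have h : b • g - (b * c) • (1 : Module.End K M) = b • (g - c • (1 : Module.End K M)) := by
    rw [smul_sub, smul_smul]
  rw [h]
  refine exists_congr fun N => ?_
  rw [smul_pow, LinearMap.smul_apply, smul_eq_zero]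
  exact ⟨fun h => h.resolve_left (pow_ne_zero N hb), Or.inr⟩

end linear

section split

variable {K A B M : Type} [Field K] [AddCommGroup A] [Module K A] [AddCommGroup B] [Module K B]
  [AddCommGroup M] [Module K M] {I : Type} [Fintype I] [DecidableEq I] {e : I → A}
  {l : I → A →ₗ[K] K}

/-- the projection to the part `W` -/
noncomputable def rem (e : I → A) (l : I → A →ₗ[K] K) (W : Submodule K A)
    (hm : ∀ x, remainder e l x ∈ W) : A →ₗ[K] W where
  toFun x := ⟨remainder e l x, hm x⟩
  map_add' x y := by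
    apply Subtype.ext
    show remainder e l (x + y) = remainder e l x + remainder e l y
    unfold remainder
    simp only [map_add, add_smul, sum_add_distrib]
    abel
  map_smul' a x := by
    apply Subtype.ext
    show remainder e l (a • x) = a • remainder e l x
    unfold remainder
    simp only [map_smul, smul_eq_mul, mul_smul, smul_sub, smul_sum]

theorem decompose {W : Submodule K A} (hm : ∀ x, remainder e l x ∈ W) (z : A ⊗[K] B) :
    z = ∑ k, e k ⊗ₜ[K] TensorProduct.lid K B (contraction (l k) z) +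
      W.subtype.rTensor B ((rem e l W hm).rTensor B z) := by
  unfold contraction
  induction z using TensorProduct.induction_on with
  | zero => simp
  | tmul a b =>
    simp only [LinearMap.rTensor_tmul, TensorProduct.lid_tmul]
    have h1 : ∀ k, e k ⊗ₜ[K] (l k a • b) = (l k a • e k) ⊗ₜ[K] b := fun k => by
      rw [TensorProduct.tmul_smul, TensorProduct.smul_tmul']
    rw [sum_congr rfl fun k _ => h1 k, ← sum_tmul, ← TensorProduct.add_tmul]
    congr 1
    show a = ∑ k, l k a • e k + remainder e l a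
    unfold remainder
    abel
  | add x y hx hy =>
    conv_lhs => rw [hx, hy]
    simp only [map_add, TensorProduct.tmul_add, sum_add_distrib]
    abel

end split

variable {K 𝒱 : Type} {H : 𝒱 → Type} [Field K] [Mul 𝒱] [∀ X, AddCommGroup (H X)]
  [∀ X, Module K (H X)] {T : Homology K H}

/-- the slant products and the degrees -/
theorem slant_deg (hT : T.IsStandard) {X Y : 𝒱} {l : H X →ₗ[K] K} {d : ℕ}
    (hl : ∀ n, n ≠ 2 * d → ∀ x ∈ T.gr X n, l x = 0) {n : ℕ} {z : H (X * Y)}
    (hz : z ∈ T.gr (X * Y) n) :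
    (2 * d ≤ n → slant (T.kunneth X Y) l z ∈ T.gr Y (n - 2 * d)) ∧
      (n < 2 * d → slant (T.kunneth X Y) l z = 0) := by
  rw [hT.degree] at hz
  unfold crossSpan at hz
  induction hz using Submodule.span_induction with
  | mem z hz =>
    obtain ⟨a, b, x, y, hab, hx, hy, rfl⟩ := hz
    rw [slant_cross]
    by_cases ha : a = 2 * d
    · refine ⟨fun _ => Submodule.smul_mem _ _ ?_, fun h => absurd h (by omega)⟩
      have : n - 2 * d = b := by omega
      rw [this]
      exact hy
    · rw [hl a ha x hx, zero_smul]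
      exact ⟨fun _ => Submodule.zero_mem _, fun _ => rfl⟩
  | zero =>
    rw [slant_zero]
    exact ⟨fun _ => Submodule.zero_mem _, fun _ => rfl⟩
  | add z z' _ _ h h' =>
    rw [slant_add]
    exact ⟨fun hn => Submodule.add_mem _ (h.1 hn) (h'.1 hn), fun hn => by
      rw [h.2 hn, h'.2 hn, add_zero]⟩
  | smul a z _ h =>
    rw [slant_smul]
    exact ⟨fun hn => Submodule.smul_mem _ _ (h.1 hn), fun hn => by rw [h.2 hn, smul_zero]⟩

theorem cross_deg (hT : T.IsStandard) {X Y : 𝒱} {a b : ℕ} {x : H X} {y : H Y}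
    (hx : x ∈ T.gr X a) (hy : y ∈ T.gr Y b) : cross (T.kunneth X Y) x y ∈ T.gr (X * Y) (a + b) := by
  rw [hT.degree]
  exact Submodule.subset_span ⟨a, b, x, y, rfl, hx, hy, rfl⟩

/-- linear combinations of generalised Tate classes -/
theorem tate_span {q m : ℕ} {V : 𝒱} {w : ℕ} {A : Set (H V)} (hA : A ⊆ T.tateClasses q m V w)
    {x : H V} (hx : x ∈ Submodule.span K A) : x ∈ T.tateClasses q m V w := by
  have h : Submodule.span K A ≤
      T.gr V (2 * w) ⊓ (T.frob V ^ m).maxGenEigenspace ((q : K) ^ (m * w)) :=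
    Submodule.span_le.2 fun y hy => hA hy
  exact h hx

/-- the slant product as a linear map -/
noncomputable def slantL {A Y : 𝒱} (k : H A ⊗[K] H Y ≃ₗ[K] H (A * Y)) (l : H A →ₗ[K] K) :
    H (A * Y) →ₗ[K] H Y where
  toFun := slant k l
  map_add' := slant_add k l
  map_smul' a z := slant_smul k l a z

/-- the product with a class as a linear map -/
noncomputable def crossL {A Y : 𝒱} (k : H A ⊗[K] H Y ≃ₗ[K] H (A * Y)) (x : H A) :
    H Y →ₗ[K] H (A * Y) where
  toFun := cross k x
  map_add' := cross_add k x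
  map_smul' a z := cross_smul k x a z

section factor

variable [CharZero K] {v : Place Unit} {R : ℕ} {X : 𝒱} {I : Type} [Fintype I] [DecidableEq I]
  {dim : I → ℕ} {e : I → H X} {l : I → H X →ₗ[K] K}

theorem l_frob (h : T.IsFactor v R X dim e l) (k : I) (x : H X) :
    l k (T.frob X x) = ((v.p : K) ^ v.m) ^ dim k * l k x := by
  obtain ⟨W, hW1, hW2, hW3, -⟩ := h.part
  have h1 : x = ∑ k, l k x • e k + remainder e l x := by
    unfold remainder
    abel
  have h2 : T.frob X x = ∑ k, (l k x * ((v.p : K) ^ v.m) ^ dim k) • e k +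
      T.frob X (remainder e l x) := by
    conv_lhs => rw [h1]
    rw [map_add, map_sum]
    congr 1
    refine sum_congr rfl fun k _ => ?_
    rw [map_smul, h.frobenius k, smul_smul]
  rw [h2, map_add, hW2 k _ (hW1 _ (hW3 x)), add_zero, map_sum, sum_eq_single k]
  · rw [map_smul, h.dual k k, if_pos rfl, smul_eq_mul, mul_one, mul_comm]
  · intro k' _ hk
    rw [map_smul, h.dual k k', if_neg (Ne.symm hk), smul_zero]
  · intro hk
    exact absurd (mem_univ k) hk

theorem slant_frob (hT : T.IsStandard) (h : T.IsFactor v R X dim e l) (k : I) (Y : 𝒱)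
    (z : H (X * Y)) : slantL (T.kunneth X Y) (l k) (T.frob (X * Y) z) =
      (((v.p : K) ^ v.m) ^ dim k • T.frob Y) (slantL (T.kunneth X Y) (l k) z) := by
  change slant (T.kunneth X Y) (l k) (T.frob (X * Y) z) =
    ((v.p : K) ^ v.m) ^ dim k • T.frob Y (slant (T.kunneth X Y) (l k) z)
  induction z using cross_ind (T.kunneth X Y) with
  | h0 => simp only [map_zero, slant_zero, smul_zero]
  | ha x y hx hy => simp only [map_add, slant_add, smul_add, hx, hy]
  | hc x y => rw [hT.cross, slant_cross, slant_cross, l_frob h, map_smul, smul_smul]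

theorem cross_frob (hT : T.IsStandard) (h : T.IsFactor v R X dim e l) (k : I) (Y : 𝒱)
    (y : H Y) : crossL (T.kunneth X Y) (e k) ((((v.p : K) ^ v.m) ^ dim k • T.frob Y) y) =
      T.frob (X * Y) (crossL (T.kunneth X Y) (e k) y) := by
  change cross (T.kunneth X Y) (e k) (((v.p : K) ^ v.m) ^ dim k • T.frob Y y) =
    T.frob (X * Y) (cross (T.kunneth X Y) (e k) y)
  rw [hT.cross, h.frobenius k, cross_smul, smul_cross]

theorem q_ne (v : Place Unit) (d : ℕ) : ((v.p : K) ^ v.m) ^ d ≠ 0 :=
  pow_ne_zero _ (pow_ne_zero _ (by exact_mod_cast v.prime.out.pos.ne'))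

theorem pw (Q : K) (d m j : ℕ) : (Q ^ d) ^ m * Q ^ (m * j) = Q ^ (m * (d + j)) := by
  rw [← pow_mul, ← pow_add]
  congr 1
  ring

theorem cast_q (v : Place Unit) (n : ℕ) : (((v.p ^ v.m : ℕ) : K)) ^ n = ((v.p : K) ^ v.m) ^ n := by
  push_cast
  rfl

/-- products with the classes `e k` -/
theorem cross_tate (hT : T.IsStandard) (h : T.IsFactor v R X dim e l) (k : I) {Y : 𝒱} {m j : ℕ}
    {y : H Y} (hy : y ∈ T.tateClasses (v.p ^ v.m) m Y j) :
    cross (T.kunneth X Y) (e k) y ∈ T.tateClasses (v.p ^ v.m) m (X * Y) (dim k + j) := by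
  refine ⟨?_, ?_⟩
  · have h1 := cross_deg hT (h.degree k) hy.1
    rwa [← mul_add] at h1
  · have h1 := hy.2
    rw [cast_q] at h1 ⊢
    have h2 : y ∈ ((((v.p : K) ^ v.m) ^ dim k • T.frob Y) ^ m).maxGenEigenspace
        ((((v.p : K) ^ v.m) ^ dim k) ^ m * ((v.p : K) ^ v.m) ^ (m * j)) := by
      rw [smul_pow]
      exact (scale (pow_ne_zero m (q_ne v _))).2 h1
    have h3 := map_gen (crossL (T.kunneth X Y) (e k)) (f' := T.frob (X * Y) ^ m)
      (fun z => map_pow' _ (cross_frob hT h k Y) m z) h2
    rw [pw] at h3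
    exact h3

/-- slant products of generalised Tate classes -/
theorem slant_tate (hT : T.IsStandard) (h : T.IsFactor v R X dim e l) (k : I) {Y : 𝒱} {m w : ℕ}
    {z : H (X * Y)} (hz : z ∈ T.tateClasses (v.p ^ v.m) m (X * Y) w) :
    (dim k ≤ w → slant (T.kunneth X Y) (l k) z ∈
      T.tateClasses (v.p ^ v.m) m Y (w - dim k)) ∧
      (w < dim k → slant (T.kunneth X Y) (l k) z = 0) := by
  have h1 := slant_deg hT (h.coordinate k) hz.1
  refine ⟨fun hk => ⟨?_, ?_⟩, fun hk => h1.2 (by omega)⟩
  · have h2 := h1.1 (by omega)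
    have h3 : 2 * w - 2 * dim k = 2 * (w - dim k) := by omega
    rwa [h3] at h2
  · have h2 := hz.2
    rw [cast_q] at h2 ⊢
    have h3 := map_gen (slantL (T.kunneth X Y) (l k))
      (f' := (((v.p : K) ^ v.m) ^ dim k • T.frob Y) ^ m)
      (fun z => map_pow' _ (slant_frob hT h k Y) m z) h2
    have h4 : ((v.p : K) ^ v.m) ^ (m * w) =
        (((v.p : K) ^ v.m) ^ dim k) ^ m * ((v.p : K) ^ v.m) ^ (m * (w - dim k)) := by
      rw [pw, Nat.add_sub_cancel' hk]
    rw [h4, smul_pow] at h3
    exact (scale (pow_ne_zero m (q_ne v _))).1 h3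

variable [IsAlgClosed K] [∀ X, FiniteDimensional K (H X)]

/-- the Frobenius on a product -/
theorem frob_kunneth (hT : T.IsStandard) (X Y : 𝒱) (u : H X ⊗[K] H Y) :
    T.frob (X * Y) (T.kunneth X Y u) =
      T.kunneth X Y (TensorProduct.map (T.frob X) (T.frob Y) u) := by
  induction u using TensorProduct.induction_on with
  | zero => simp
  | tmul x y => exact hT.cross X Y x y
  | add x y hx hy => rw [map_add, map_add, hx, hy, map_add, map_add]

theorem eig_two (hT : T.IsStandard) {X Y : 𝒱} {ν : K} (hν : (T.frob (X * Y)).HasEigenvalue ν) :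
    ∃ μ μ', (T.frob X).HasEigenvalue μ ∧ (T.frob Y).HasEigenvalue μ' ∧ ν = μ * μ' := by
  obtain ⟨x, hx, hx0⟩ := hν.exists_hasEigenvector
  have hx1 : T.frob (X * Y) x = ν • x := Module.End.mem_eigenspace_iff.1 hx
  have h3 : Module.End.HasEigenvalue (TensorProduct.map (T.frob X) (T.frob Y) :
      Module.End K (H X ⊗[K] H Y)) ν := by
    refine Module.End.hasEigenvalue_of_hasEigenvector (x := (T.kunneth X Y).symm x)
      ⟨Module.End.mem_eigenspace_iff.2 ?_, fun h => hx0 ?_⟩
    · apply (T.kunneth X Y).injective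
      rw [← frob_kunneth hT, LinearEquiv.apply_symm_apply, hx1, map_smul,
        LinearEquiv.apply_symm_apply]
    · rw [← (T.kunneth X Y).apply_symm_apply x, h, map_zero]
  exact Pool.Agent.N179.FG.eig_tensor (hT.injective X) h3

/-- **The components of a generalised Tate class.** -/
theorem comp (hT : T.IsStandard) (h : T.IsFactor v R X dim e l) (hpos : 0 < v.m) {Y : 𝒱}
    (hY : ∀ β : K, (T.frob Y).HasEigenvalue β → AvoidsDenominator v R β) {m w : ℕ} (hm : 0 < m)
    {x : H (X * Y)} (hx : x ∈ T.tateClasses (v.p ^ v.m) m (X * Y) w) :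
    x = ∑ k, cross (T.kunneth X Y) (e k) (slant (T.kunneth X Y) (l k) x) := by
  obtain ⟨W, hW1, hW2, hW3, hW4⟩ := h.part
  have hrem : ∀ a, rem e l W hW3 (T.frob X a) = (T.frob X).restrict hW1 (rem e l W hW3 a) := by
    intro a
    apply Subtype.ext
    show remainder e l (T.frob X a) = T.frob X (remainder e l a)
    unfold remainder
    rw [map_sub, map_sum]
    congr 1
    refine sum_congr rfl fun k _ => ?_
    rw [l_frob h, map_smul, h.frobenius k, smul_smul, mul_comm]
  let ρ : H (X * Y) →ₗ[K] W ⊗[K] H Y :=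
    (rem e l W hW3).rTensor (H Y) ∘ₗ (T.kunneth X Y).symm.toLinearMap
  have hρ : ∀ z, ρ (T.frob (X * Y) z) =
      TensorProduct.map ((T.frob X).restrict hW1) (T.frob Y) (ρ z) := by
    intro z
    obtain ⟨u, rfl⟩ := (T.kunneth X Y).surjective z
    show (rem e l W hW3).rTensor (H Y) ((T.kunneth X Y).symm (T.frob (X * Y) (T.kunneth X Y u))) =
      TensorProduct.map ((T.frob X).restrict hW1) (T.frob Y)
        ((rem e l W hW3).rTensor (H Y) ((T.kunneth X Y).symm (T.kunneth X Y u)))
    rw [frob_kunneth hT, LinearEquiv.symm_apply_apply, LinearEquiv.symm_apply_apply]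
    induction u using TensorProduct.induction_on with
    | zero => simp
    | tmul a b =>
      rw [TensorProduct.map_tmul, LinearMap.rTensor_tmul, LinearMap.rTensor_tmul,
        TensorProduct.map_tmul, hrem]
    | add a b ha hb => rw [map_add, map_add, map_add, map_add, ha, hb]
  have h0 : ρ x = 0 := by
    by_contra hne
    have h1 := map_gen ρ (f' := (TensorProduct.map ((T.frob X).restrict hW1) (T.frob Y)) ^ m)
      (fun z => map_pow' ρ hρ m z) hx.2
    obtain ⟨ν, hν, hνm⟩ := exists_root hm (hasEigenvalue_of_gen h1 hne)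
    obtain ⟨α, β, hα, hβ, rfl⟩ := Pool.Agent.N179.FG.eig_tensor (fun a b hab => Subtype.ext
      (hT.injective X (congrArg Subtype.val hab))) hν
    obtain ⟨t, ht, ht0⟩ := hα.exists_hasEigenvector
    have h2 : T.frob X (t : H X) = α • (t : H X) :=
      congrArg Subtype.val (Module.End.mem_eigenspace_iff.1 ht)
    have h3 := hW4 α t t.2 (fun h => ht0 (Subtype.ext h)) h2
    refine no_resonance hpos h3 (hY β hβ) hm (j := w) ?_
    rw [hνm, cast_q]
  have h1 := decompose hW3 ((T.kunneth X Y).symm x)
  have h2 : (rem e l W hW3).rTensor (H Y) ((T.kunneth X Y).symm x) = 0 := h0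
  rw [h2, map_zero, add_zero] at h1
  have h3 := congrArg (T.kunneth X Y) h1
  rw [LinearEquiv.apply_symm_apply, map_sum] at h3
  exact h3

/-- one step for the classes -/
theorem step_classes (hT : T.IsStandard) (h : T.IsFactor v R X dim e l) {Y : 𝒱} {m : ℕ}
    (hc : ∀ w, ∀ x ∈ T.tateClasses (v.p ^ v.m) m (X * Y) w,
      x = ∑ k, cross (T.kunneth X Y) (e k) (slant (T.kunneth X Y) (l k) x))
    {Q : ℕ → Set (H Y)}
    (hQ : ∀ w, T.tateClasses (v.p ^ v.m) m Y w = (Submodule.span K (Q w) : Set _)) (w : ℕ) :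
    T.tateClasses (v.p ^ v.m) m (X * Y) w = (Submodule.span K {x | ∃ (k : I) (y : H Y),
      dim k ≤ w ∧ y ∈ Q (w - dim k) ∧ cross (T.kunneth X Y) (e k) y = x} : Set _) := by
  ext x
  constructor
  · intro hx
    rw [hc w x hx]
    refine Submodule.sum_mem _ fun k _ => ?_
    rcases Nat.lt_or_ge w (dim k) with hk | hk
    · rw [(slant_tate hT h k hx).2 hk, cross_zero]
      exact Submodule.zero_mem _
    · have h3 := (slant_tate hT h k hx).1 hk
      rw [hQ] at h3
      have h4 : ∀ y ∈ Submodule.span K (Q (w - dim k)), cross (T.kunneth X Y) (e k) y ∈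
          Submodule.span K {x | ∃ (k : I) (y : H Y),
            dim k ≤ w ∧ y ∈ Q (w - dim k) ∧ cross (T.kunneth X Y) (e k) y = x} := by
        intro y hy
        induction hy using Submodule.span_induction with
        | mem y hy => exact Submodule.subset_span ⟨k, y, hk, hy, rfl⟩
        | zero => rw [cross_zero]; exact Submodule.zero_mem _
        | add a b _ _ ha hb => rw [cross_add]; exact Submodule.add_mem _ ha hb
        | smul a b _ hb => rw [cross_smul]; exact Submodule.smul_mem _ _ hb
      exact h4 _ h3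
  · intro hx
    refine tate_span ?_ hx
    rintro _ ⟨k, y, hk, hy, rfl⟩
    have h1 : y ∈ T.tateClasses (v.p ^ v.m) m Y (w - dim k) := by
      rw [hQ]
      exact Submodule.subset_span hy
    have h2 := cross_tate hT h k h1
    rwa [Nat.add_sub_cancel' hk] at h2

/-- one step for the semisimplicity -/
theorem step_semisimple (hT : T.IsStandard) (h : T.IsFactor v R X dim e l) {Y : 𝒱} {m : ℕ}
    (hc : ∀ w, ∀ x ∈ T.tateClasses (v.p ^ v.m) m (X * Y) w,
      x = ∑ k, cross (T.kunneth X Y) (e k) (slant (T.kunneth X Y) (l k) x)) (w : ℕ) :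
    T.Semisimple (v.p ^ v.m) m (X * Y) w ↔
      ∀ k, dim k ≤ w → T.Semisimple (v.p ^ v.m) m Y (w - dim k) := by
  have hpw : ∀ k, dim k ≤ w → (((v.p : K) ^ v.m) ^ dim k) ^ m *
      ((v.p : K) ^ v.m) ^ (m * (w - dim k)) = ((v.p : K) ^ v.m) ^ (m * w) := by
    intro k hk
    rw [pw, Nat.add_sub_cancel' hk]
  have hcr : ∀ k (y : H Y), (T.frob (X * Y) ^ m) (cross (T.kunneth X Y) (e k) y) =
      (((v.p : K) ^ v.m) ^ dim k) ^ m • cross (T.kunneth X Y) (e k) ((T.frob Y ^ m) y) := by
    intro k y
    have h1 := map_pow' _ (cross_frob hT h k Y) m y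
    rw [smul_pow] at h1
    change cross (T.kunneth X Y) (e k) ((((v.p : K) ^ v.m) ^ dim k) ^ m • (T.frob Y ^ m) y) =
      _ at h1
    rw [cross_smul] at h1
    exact h1.symm
  constructor
  · intro hs k hk y hy
    have h1 := cross_tate hT h k hy
    rw [Nat.add_sub_cancel' hk] at h1
    have h2 := hs _ h1
    rw [hcr, cast_q, ← hpw k hk, mul_smul] at h2
    have h3 := smul_right_injective _ (pow_ne_zero m (q_ne v (dim k))) h2
    have h4 := congrArg (slant (T.kunneth X Y) (l k)) h3
    change slant (T.kunneth X Y) (l k) (cross (T.kunneth X Y) (e k) ((T.frob Y ^ m) y)) =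
      slant (T.kunneth X Y) (l k) (_ • cross (T.kunneth X Y) (e k) y) at h4
    rw [slant_smul, slant_cross, slant_cross, h.dual k k, if_pos rfl, one_smul, one_smul] at h4
    rw [cast_q]
    exact h4
  · intro hs x hx
    rw [cast_q]
    have h1 := hc w x hx
    have h2 : ∀ k, (T.frob (X * Y) ^ m) (cross (T.kunneth X Y) (e k)
        (slant (T.kunneth X Y) (l k) x)) = ((v.p : K) ^ v.m) ^ (m * w) •
          cross (T.kunneth X Y) (e k) (slant (T.kunneth X Y) (l k) x) := by
      intro k
      rcases Nat.lt_or_ge w (dim k) with hk | hk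
      · rw [(slant_tate hT h k hx).2 hk, cross_zero, map_zero, smul_zero]
      · have h3 := hs k hk _ ((slant_tate hT h k hx).1 hk)
        rw [hcr, h3, cast_q, cross_smul, smul_smul, hpw k hk]
    conv_lhs => rw [h1]
    conv_rhs => rw [h1]
    rw [map_sum, smul_sum]
    exact sum_congr rfl fun k _ => h2 k

end factor

section main

variable [CharZero K] [IsAlgClosed K] [∀ X, FiniteDimensional K (H X)] {v : Place Unit}
  {ι : Type} {R : ι → ℕ} {X : ι → 𝒱} {U : 𝒱} {I : ι → Type} [∀ i, Fintype (I i)]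
  [∀ i, DecidableEq (I i)] {dim : ∀ i, I i → ℕ} {e : ∀ i, I i → H (X i)}
  {l : ∀ i, I i → H (X i) →ₗ[K] K}

/-- the eigenvalues on products avoid the denominator -/
theorem avoids_productOf (hT : T.IsStandard) (hm : 0 < v.m) {r : ℕ} (hR : IsPrimePow r)
    {L : List ι} (hX : ∀ j ∈ L, Avoids v r (T.frob (X j))) (hU : Avoids v r (T.frob U)) {β : K}
    (hβ : (T.frob (productOf X U L)).HasEigenvalue β) : AvoidsDenominator v r β := by
  induction L generalizing β with
  | nil => exact hU.eigenvalue hm hR hβ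
  | cons i L ih =>
    obtain ⟨μ, μ', h1, h2, rfl⟩ := eig_two hT hβ
    exact ((hX i List.mem_cons_self).eigenvalue hm hR h1).mul hR
      (ih (fun j hj => hX j (List.mem_cons_of_mem _ hj)) h2)

theorem comp_list (hT : T.IsStandard) (h : T.IsSystem v R X U dim e l) {i : ι} {L : List ι}
    (hL : (i :: L).Nodup) {m : ℕ} (hm : 0 < m) (w : ℕ) :
    ∀ x ∈ T.tateClasses (v.p ^ v.m) m (X i * productOf X U L) w,
      x = ∑ k, cross (T.kunneth (X i) (productOf X U L)) (e i k)
        (slant (T.kunneth (X i) (productOf X U L)) (l i k) x) := by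
  intro x hx
  refine comp hT (h.factor i) h.pos (fun β hβ => ?_) hm hx
  refine avoids_productOf hT h.pos (h.prime i) (fun j hj => h.others i j ?_) (h.base i) hβ
  rintro rfl
  exact (List.nodup_cons.1 hL).1 hj

theorem zero_mem_dimensions (h : ∀ i, ∃ k, dim i k = 0) (L : List ι) : 0 ∈ dimensions dim L := by
  induction L with
  | nil => rfl
  | cons i L ih =>
    obtain ⟨k, hk⟩ := h i
    exact ⟨k, 0, ih, by rw [hk]⟩

/-- **The main theorem.** -/
theorem main (hT : T.IsStandard) (h : T.IsSystem v R X U dim e l) (L : List ι) (hL : L.Nodup) :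
    T.Conclusions (v.p ^ v.m) X U dim e L := by
  have h1 : ∀ L : List ι, L.Nodup → ∀ m w : ℕ, 0 < m →
      T.tateClasses (v.p ^ v.m) m (productOf X U L) w =
        (Submodule.span K (T.products dim e (T.tateClasses (v.p ^ v.m) m U) L w) : Set _) := by
    intro L
    induction L with
    | nil =>
      intro _ m w _
      ext x
      exact ⟨fun hx => Submodule.subset_span hx, fun hx => tate_span (fun y hy => hy) hx⟩
    | cons i L ih =>
      intro hL m w hm
      exact step_classes hT (h.factor i) (comp_list hT h hL hm)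
        (fun w => ih (List.nodup_cons.1 hL).2 m w hm) w
  have h2 : ∀ L : List ι, L.Nodup → ∀ m w : ℕ, 0 < m →
      (T.Semisimple (v.p ^ v.m) m (productOf X U L) w ↔
        ∀ d ∈ dimensions dim L, d ≤ w → T.Semisimple (v.p ^ v.m) m U (w - d)) := by
    intro L
    induction L with
    | nil =>
      intro _ m w _
      constructor
      · rintro hs d hd -
        have hd' : d = 0 := hd
        rw [hd', Nat.sub_zero]
        exact hs
      · intro hs
        exact hs 0 rfl (Nat.zero_le _)
    | cons i L ih =>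
      intro hL m w hm
      refine (step_semisimple hT (h.factor i) (comp_list hT h hL hm) w).trans ?_
      constructor
      · rintro hs _ ⟨k, d, hd, rfl⟩ hdw
        have h3 := (ih (List.nodup_cons.1 hL).2 m (w - dim i k) hm).1 (hs k (by omega)) d hd
          (by omega)
        rwa [Nat.sub_sub] at h3
      · intro hs k hk
        refine (ih (List.nodup_cons.1 hL).2 m (w - dim i k) hm).2 fun d hd hdw => ?_
        rw [Nat.sub_sub]
        exact hs _ ⟨k, d, hd, rfl⟩ (by omega)
  refine ⟨h1 L hL, h2 L hL, fun m n hm => ⟨fun hs w hw => ?_, fun hs w hw => ?_⟩⟩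
  · have h3 := (h2 L hL m w hm).1 (hs w hw) 0
      (zero_mem_dimensions (fun i => (h.factor i).point) L) (Nat.zero_le _)
    rwa [Nat.sub_zero] at h3
  · exact (h2 L hL m w hm).2 fun d _ _ => hs _ (by omega)

end main

end Pool.Agent.U173.SS
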